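import Mathlib
import Pool.Agent.J4H26.KP.Main2

set_option autoImplicit false

/-! Project KP: the law of the local density, uniformly in all invariant sets and all densities. -/

namespace Pool.Agent.J4H5.KPU

open Finset Filter Real
open Pool.Agent.J4H26.PC (InvS ct)
open Pool.Agent.J4H26.KP

/-- polynomials, uniformly in the invariant set and its density -/
theorem poly_uniform {θ : ℝ} (hθ : 0 < θ) (hθ1 : θ < 1) (q : Polynomial ℝ) :
    ∃ L : ℝ → ℝ, ∀ ε : ℝ, 0 < ε → ∀ᶠ N : ℕ in atTop, ∀ (s : ℤ) (R : Set ℤ) (δ : ℝ), (s = 1 ∨ s = -1) → InvS s R →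
      Tendsto (fun N : ℕ => ct s R N / N) atTop (nhds δ) → |ms s R N ⌊(N : ℝ) ^ θ⌋₊ (fun x => q.eval x) - L δ| ≤ ε := by
  induction q using Polynomial.induction_on' with
  | add p q hp hq =>
    obtain ⟨a, ha⟩ := hp
    obtain ⟨b, hb⟩ := hq
    refine ⟨fun δ => a δ + b δ, fun ε hε => ?_⟩
    filter_upwards [ha (ε / 2) (half_pos hε), hb (ε / 2) (half_pos hε)] with N h1 h2 s R δ hs hR hδ
    have c1 := h1 s R δ hs hR hδ
    have c2 := h2 s R δ hs hR hδ
    simp only [Polynomial.eval_add, ms_add]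
    rw [abs_le] at *
    constructor <;> linarith [c1.1, c1.2, c2.1, c2.2]
  | monomial n c =>
    have hp : ∃ L : ℝ → ℝ, ∀ ε : ℝ, 0 < ε → ∀ᶠ N : ℕ in atTop, ∀ (s : ℤ) (R : Set ℤ) (δ : ℝ), (s = 1 ∨ s = -1) → InvS s R →
        Tendsto (fun N : ℕ => ct s R N / N) atTop (nhds δ) → |ms s R N ⌊(N : ℝ) ^ θ⌋₊ (fun x => x ^ n) - L δ| ≤ ε := by
      cases n with
      | zero =>
        refine ⟨fun _ => 1, fun ε hε => ?_⟩
        filter_upwards [eventually_ge_atTop 1] with N hN s R δ hs hR hδ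
        have hN0 : (N : ℝ) ≠ 0 := by
          have : (0 : ℝ) < N := by exact_mod_cast hN
          exact this.ne'
        have e : ms s R N ⌊(N : ℝ) ^ θ⌋₊ (fun x => x ^ 0) = 1 := by
          unfold ms
          simp only [pow_zero, sum_const, Nat.card_Icc, Nat.add_sub_cancel, nsmul_eq_mul, mul_one]
          exact div_self hN0
        rw [e, sub_self, abs_zero]
        exact hε.le
      | succ K =>
        obtain ⟨p, _, h⟩ := main_lim K hθ hθ1
        refine ⟨fun δ => ∑ P, p P * ∏ _B ∈ P, δ, fun ε hε => ?_⟩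
        filter_upwards [h 1 (Or.inl rfl) ε hε, h (-1) (Or.inr rfl) ε hε] with N h1 h2 s R δ hs hR hδ
        rw [ms_pow]
        rcases hs with rfl | rfl
        · exact h1 (fun _ => R) (fun _ => δ) (fun _ => hR) (fun B hB => dens_const hδ B hB)
        · exact h2 (fun _ => R) (fun _ => δ) (fun _ => hR) (fun B hB => dens_const hδ B hB)
    obtain ⟨a, ha⟩ := hp
    refine ⟨fun δ => c * a δ, fun ε hε => ?_⟩
    filter_upwards [ha (ε / (|c| + 1)) (by positivity)] with N h1 s R δ hs hR hδ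
    have c1 := h1 s R δ hs hR hδ
    simp only [Polynomial.eval_monomial, ms_smul]
    rw [← mul_sub, abs_mul]
    refine (mul_le_mul (show |c| ≤ |c| + 1 by linarith) c1 (abs_nonneg _) (by positivity)).trans (le_of_eq ?_)
    have : |c| + 1 ≠ 0 := by positivity
    field_simp

/-- **The law of the local density, uniformly in all invariant sets and all densities.** -/
theorem main_law_uniform {θ : ℝ} (hθ : 0 < θ) (hθ1 : θ < 1) {φ : ℝ → ℝ} (hφ : Continuous φ) :
    ∃ L : ℝ → ℝ, ∀ ε : ℝ, 0 < ε → ∀ᶠ N : ℕ in atTop, ∀ (s : ℤ) (R : Set ℤ) (δ : ℝ), (s = 1 ∨ s = -1) → InvS s R →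
      Tendsto (fun N : ℕ => ct s R N / N) atTop (nhds δ) → |ms s R N ⌊(N : ℝ) ^ θ⌋₊ φ - L δ| ≤ ε := by
  choose L hL using fun δ => main_law hθ hθ1 hφ δ
  refine ⟨L, fun ε hε => ?_⟩
  obtain ⟨q, hq⟩ := exists_polynomial_near_of_continuousOn 0 1 φ hφ.continuousOn (ε / 4) (by positivity)
  have hq' : ∀ x ∈ Set.Icc (0 : ℝ) 1, |φ x - q.eval x| ≤ ε / 4 := by
    intro x hx
    rw [abs_sub_comm]
    exact (hq x hx).le
  obtain ⟨a, ha⟩ := poly_uniform hθ hθ1 q
  obtain ⟨N₀, h0⟩ := eventually_atTop.1 (ha (ε / 8) (by positivity))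
  filter_upwards [eventually_ge_atTop N₀] with N hN s R δ hs hR hδ
  obtain ⟨N₁, h1⟩ := eventually_atTop.1 (hL δ (ε / 8) (by positivity))
  have b1 := h0 N hN s R δ hs hR hδ
  have b2 := h0 (max N₀ N₁) (le_max_left _ _) s R δ hs hR hδ
  have b3 := h1 (max N₀ N₁) (le_max_right _ _) s R hs hR hδ
  have c1 := ms_near (s := s) (R := R) (N := N) (H := ⌊(N : ℝ) ^ θ⌋₊) (show 0 ≤ ε / 4 by positivity) hq'
  have c2 := ms_near (s := s) (R := R) (N := max N₀ N₁) (H := ⌊((max N₀ N₁ : ℕ) : ℝ) ^ θ⌋₊) (show 0 ≤ ε / 4 by positivity) hq'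
  rw [abs_le] at b1 b2 b3 c1 c2 ⊢
  constructor <;> linarith [b1.1, b1.2, b2.1, b2.2, b3.1, b3.2, c1.1, c1.2, c2.1, c2.2]

end Pool.Agent.J4H5.KPU
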